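import Pool.Agent.H8.AV3.Stmts

/-!
# SNG: the cubic is smooth at its rational points (the hypothesis `hONT` is not needed)
-/

set_option autoImplicit false

namespace Pool.Agent.H74.AV3

open Polynomial Matrix Pool.AVR Pool.AV3

theorem eval_cub {K : Type} [Field K] (a b c X : K) :
    (cub a b c).eval X = X ^ 3 + a * X ^ 2 + b * X + c := by
  simp [cub]

theorem eval_dcub {K : Type} [Field K] (a b c X : K) :
    (derivative (cub a b c)).eval X = 3 * X ^ 2 + 2 * a * X + b := by
  simp [cub]
  ring

theorem SNG_thm : SNGStmt := by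
  intro K _ _ h2 a b c hsep x y hon v hv hF
  by_contra hcon
  push Not at hcon
  have e0 := hcon ![1, 0, 0]
  have e1' := hcon ![0, 1, 0]
  have e2 := hcon ![0, 0, 1]
  simp only [tder, FP, Matrix.cons_val] at e0 e1' e2
  simp only [tev, FP, Matrix.cons_val] at hF
  by_cases hZ : v 2 = 0
  · rw [hZ] at e1' e2
    have h0 : v 0 = 0 := by
      have : v 0 ^ 2 = 0 := by linear_combination e1'
      simpa using this
    have h1 : v 1 = 0 := by
      rw [h0] at e2
      have : v 1 ^ 2 = 0 := by linear_combination -e2
      simpa using this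
    apply hv
    funext i
    fin_cases i
    · exact h0
    · exact h1
    · exact hZ
  · set u := v 2 with hu
    obtain ⟨m, hm⟩ : ∃ m, v 0 = m * u := ⟨v 0 / u, by field_simp⟩
    obtain ⟨X, hX⟩ : ∃ X, v 1 = X * u := ⟨v 1 / u, by field_simp⟩
    rw [hm, hX] at e0 e1' hF
    have f0 : m * (X - x) - y = 0 := by
      have : u ^ 2 * 2 * (m * (X - x) - y) = 0 := by linear_combination e0
      rcases mul_eq_zero.1 this with h | h
      · exact absurd h (mul_ne_zero (pow_ne_zero 2 hZ) h2)
      · exact h
    have f1 : m ^ 2 - 2 * X - (x + a) = 0 := by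
      have : u ^ 2 * (m ^ 2 - 2 * X - (x + a)) = 0 := by linear_combination e1'
      rcases mul_eq_zero.1 this with h | h
      · exact absurd h (pow_ne_zero 2 hZ)
      · exact h
    have f2 : m ^ 2 * X - x * m ^ 2 - 2 * y * m - X ^ 2 - (x + a) * X -
        (x ^ 2 + a * x + b) = 0 := by
      have : u ^ 3 * (m ^ 2 * X - x * m ^ 2 - 2 * y * m - X ^ 2 - (x + a) * X -
        (x ^ 2 + a * x + b)) = 0 := by linear_combination hF
      rcases mul_eq_zero.1 this with h | h
      · exact absurd h (pow_ne_zero 3 hZ)
      · exact h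
    have g0 : X ^ 3 + a * X ^ 2 + b * X + c = 0 := by
      unfold OnC at hon
      linear_combination (m * (X - x) - y) * f0 - (X - x) * f2 - hon
    have g1 : 3 * X ^ 2 + 2 * a * X + b = 0 := by
      linear_combination (2 * m) * f0 - f2 - (X - x) * f1
    obtain ⟨p, q, hpq⟩ := hsep
    have := congrArg (Polynomial.eval X) hpq
    rw [eval_add, eval_mul, eval_mul, eval_cub, eval_dcub, g0, g1] at this
    simp at this

end Pool.Agent.H74.AV3
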