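import Pool.Agent.H8.AV3.Stmts
import Pool.Agent.H95.AVR.CNF

/-!
# DEN: the exceptional curves are rare
-/

set_option autoImplicit false

namespace Pool.Agent.H74.AV3

open Polynomial Matrix Pool.AVR Pool.AV3

/-- A curve with a point of order three. -/
theorem torsion3 {K : Type} [Field K] [DecidableEq K] (h2 : (2 : K) ≠ 0) (a b c : K)
    (T : Pt a b c) (hT : T ≠ 0) (h3 : T + T + T = 0) :
    ∃ x y l : K, y ≠ 0 ∧ a = l ^ 2 - 3 * x ∧ b = 3 * x ^ 2 + 2 * l * (y - l * x) ∧
      c = (y - l * x) ^ 2 - x ^ 3 := by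
  cases T with
  | zero => exact absurd rfl hT
  | some x y h =>
    have hon : y ^ 2 = x ^ 3 + a * x ^ 2 + b * x + c := by
      have := h.1
      rw [WeierstrassCurve.Affine.equation_iff] at this
      simp only [WeierstrassCurve.toAffine, E] at this
      linear_combination this
    have hneg : (E a b c).toAffine.negY x y = -y := by
      simp [WeierstrassCurve.Affine.negY, E]
    have hTT : (WeierstrassCurve.Affine.Point.some x y h : Pt a b c) +
        WeierstrassCurve.Affine.Point.some x y h = -WeierstrassCurve.Affine.Point.some x y h :=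
      eq_neg_of_add_eq_zero_left h3
    by_cases hy : y = 0
    · exfalso
      have h0 := WeierstrassCurve.Affine.Point.add_self_of_Y_eq (h₁ := h) (by
        rw [hneg, hy, neg_zero])
      rw [h0, zero_add] at h3
      exact hT h3
    · have hyn : y ≠ (E a b c).toAffine.negY x y := by
        rw [hneg]
        intro h5
        have : 2 * y = 0 := by linear_combination h5
        rcases mul_eq_zero.1 this with h6 | h6
        · exact h2 h6
        · exact hy h6
      set l := (E a b c).toAffine.slope x x y y with hl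
      have hl2 : 2 * l * y = 3 * x ^ 2 + 2 * a * x + b := by
        have h2y : (2 : K) * y ≠ 0 := mul_ne_zero h2 hy
        rw [hl, WeierstrassCurve.Affine.slope_of_Y_ne rfl hyn, hneg]
        simp only [WeierstrassCurve.toAffine, E]
        have : y - -y = 2 * y := by ring
        rw [this]
        field_simp
        ring
      rw [WeierstrassCurve.Affine.Point.add_self_of_Y_ne hyn,
        WeierstrassCurve.Affine.Point.neg_some] at hTT
      have h7 : (E a b c).toAffine.addX x x l = x := by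
        injection hTT
      have h8 : l ^ 2 - a - x - x = x := by
        simpa [WeierstrassCurve.Affine.addX, WeierstrassCurve.toAffine, E] using h7
      refine ⟨x, y, l, hy, ?_, ?_, ?_⟩
      · linear_combination -h8
      · linear_combination -hl2 + 2 * x * h8
      · linear_combination -hon + x * hl2 - x ^ 2 * h8

/-- A square root of a polynomial. -/
theorem sqrt_poly {F : Type} [Field F] {N : ℕ} (p : F[X]) (hp : p.natDegree ≤ 2 * N)
    (z : RatFunc F) (hz : z ^ 2 = algebraMap F[X] (RatFunc F) p) :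
    ∃ r : F[X], r.natDegree ≤ N ∧ z = algebraMap F[X] (RatFunc F) r := by
  have hint : IsIntegral F[X] z := by
    refine ⟨X ^ 2 - C p, monic_X_pow_sub_C p (by norm_num), ?_⟩
    simp [hz]
  obtain ⟨r, rfl⟩ := IsIntegrallyClosed.algebraMap_eq_of_integral hint
  refine ⟨r, ?_, rfl⟩
  rw [← map_pow] at hz
  have h := IsFractionRing.injective F[X] (RatFunc F) hz
  rw [← h, natDegree_pow] at hp
  omega

theorem case3 {F : Type} [Field F] (h3 : (3 : F) = 0) (n : ℕ) (f : F[X] × F[X] × F[X])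
    (hf : f ∈ Fam F n) (x l : RatFunc F)
    (h : algebraMap F[X] (RatFunc F) f.1 = l ^ 2 - 3 * x) :
    ∃ r : F[X], r.natDegree ≤ n ∧ f.1 = r ^ 2 := by
  have h3' : (3 : RatFunc F) = 0 := by
    have : algebraMap F (RatFunc F) 3 = 0 := by rw [h3, map_zero]
    rwa [map_ofNat] at this
  rw [h3', zero_mul, sub_zero] at h
  obtain ⟨r, hr, hlr⟩ := sqrt_poly f.1 hf.1 l h.symm
  refine ⟨r, hr, ?_⟩
  rw [hlr, ← map_pow] at h
  exact IsFractionRing.injective F[X] (RatFunc F) h

theorem deg_bound {F : Type} [Field F] (h3 : (3 : F) ≠ 0) (n : ℕ) (a b c r : F[X])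
    (ha : a.natDegree ≤ 2 * n) (hb : b.natDegree ≤ 4 * n) (hc : c.natDegree ≤ 6 * n)
    (hr : 3 * r ^ 4 + 4 * a * r ^ 3 + 6 * b * r ^ 2 + 12 * c * r + (4 * a * c - b ^ 2) = 0) :
    r.natDegree ≤ 2 * n := by
  by_contra hcon
  push Not at hcon
  have k : ∀ m : ℕ, ((m : F[X])).natDegree = 0 := fun m => natDegree_natCast m
  have e0 : (3 * r ^ 4).natDegree = 4 * r.natDegree := by
    have : (3 : F[X]) = C 3 := (map_ofNat C 3).symm
    rw [this, natDegree_C_mul h3, natDegree_pow]
  have e1 : (4 * a * r ^ 3).natDegree ≤ 2 * n + 3 * r.natDegree := by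
    have h1 := natDegree_mul_le (p := (4 : F[X]) * a) (q := r ^ 3)
    have h2 := natDegree_mul_le (p := (4 : F[X])) (q := a)
    have h4 : (4 : F[X]).natDegree = 0 := k 4
    have h5 := natDegree_pow r 3
    omega
  have e2 : (6 * b * r ^ 2).natDegree ≤ 4 * n + 2 * r.natDegree := by
    have h1 := natDegree_mul_le (p := (6 : F[X]) * b) (q := r ^ 2)
    have h2 := natDegree_mul_le (p := (6 : F[X])) (q := b)
    have h4 : (6 : F[X]).natDegree = 0 := k 6
    have h5 := natDegree_pow r 2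
    omega
  have e3 : (12 * c * r).natDegree ≤ 6 * n + r.natDegree := by
    have h1 := natDegree_mul_le (p := (12 : F[X]) * c) (q := r)
    have h2 := natDegree_mul_le (p := (12 : F[X])) (q := c)
    have h4 : (12 : F[X]).natDegree = 0 := k 12
    omega
  have e4 : (4 * a * c - b ^ 2).natDegree ≤ 8 * n := by
    have h0 := natDegree_sub_le (4 * a * c) (b ^ 2)
    have h1 := natDegree_mul_le (p := (4 : F[X]) * a) (q := c)
    have h2 := natDegree_mul_le (p := (4 : F[X])) (q := a)
    have h4 : (4 : F[X]).natDegree = 0 := k 4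
    have h5 := natDegree_pow b 2
    have h6 : max (4 * a * c).natDegree (b ^ 2).natDegree ≤ 8 * n := max_le (by omega) (by omega)
    omega
  have e5 : (4 * a * r ^ 3 + 6 * b * r ^ 2 + 12 * c * r + (4 * a * c - b ^ 2)).natDegree <
      4 * r.natDegree := by
    refine lt_of_le_of_lt (natDegree_add_le _ _) (max_lt ?_ (by omega))
    refine lt_of_le_of_lt (natDegree_add_le _ _) (max_lt ?_ (by omega))
    exact lt_of_le_of_lt (natDegree_add_le _ _) (max_lt (by omega) (by omega))
  have e6 : 3 * r ^ 4 = -(4 * a * r ^ 3 + 6 * b * r ^ 2 + 12 * c * r + (4 * a * c - b ^ 2)) := by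
    linear_combination hr
  rw [e6, natDegree_neg] at e0
  omega

theorem int4 {F : Type} [Field F] (x : RatFunc F) (p₁ p₂ p₃ p₄ : F[X])
    (h : x ^ 4 + algebraMap F[X] (RatFunc F) p₁ * x ^ 3 + algebraMap F[X] (RatFunc F) p₂ * x ^ 2 +
      algebraMap F[X] (RatFunc F) p₃ * x + algebraMap F[X] (RatFunc F) p₄ = 0) :
    IsIntegral F[X] x := by
  refine ⟨X ^ 4 + C p₁ * X ^ 3 + C p₂ * X ^ 2 + C p₃ * X + C p₄, ?_, ?_⟩
  · monicity!
  · simp only [eval₂_add, eval₂_mul, eval₂_pow, eval₂_X, eval₂_C]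
    exact h

theorem case1 {F : Type} [Field F] (h3 : (3 : F) ≠ 0) (n : ℕ) (f : F[X] × F[X] × F[X])
    (hf : f ∈ Fam F n) (x y l : RatFunc F)
    (ha : algebraMap F[X] (RatFunc F) f.1 = l ^ 2 - 3 * x)
    (hb : algebraMap F[X] (RatFunc F) f.2.1 = 3 * x ^ 2 + 2 * l * (y - l * x))
    (hc : algebraMap F[X] (RatFunc F) f.2.2 = (y - l * x) ^ 2 - x ^ 3) :
    ∃ r s u : F[X], r.natDegree ≤ 2 * n ∧ s.natDegree ≤ 3 * n ∧ u.natDegree ≤ n ∧
      f = (u ^ 2 - 3 * r, 3 * r ^ 2 + 2 * u * (s - u * r), (s - u * r) ^ 2 - r ^ 3) := by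
  obtain ⟨a, b, c⟩ := f
  obtain ⟨hda, hdb, hdc⟩ := hf
  simp only at ha hb hc hda hdb hdc
  have hx4 : 3 * x ^ 4 + 4 * algebraMap F[X] (RatFunc F) a * x ^ 3 +
      6 * algebraMap F[X] (RatFunc F) b * x ^ 2 + 12 * algebraMap F[X] (RatFunc F) c * x +
      (4 * algebraMap F[X] (RatFunc F) a * algebraMap F[X] (RatFunc F) c -
        algebraMap F[X] (RatFunc F) b ^ 2) = 0 := by
    rw [ha, hb, hc]
    ring
  have h32 : (C (3 : F)⁻¹ : F[X]) * 3 = 1 := by
    have : (3 : F[X]) = C 3 := (map_ofNat C 3).symm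
    rw [this, ← C_mul, inv_mul_cancel₀ h3, C_1]
  have h31 : algebraMap F[X] (RatFunc F) (C (3 : F)⁻¹) * 3 = 1 := by
    have := congrArg (algebraMap F[X] (RatFunc F)) h32
    rwa [map_mul, map_one, map_ofNat] at this
  have hint : IsIntegral F[X] x := by
    refine int4 x (C (3 : F)⁻¹ * (4 * a)) (C (3 : F)⁻¹ * (6 * b)) (C (3 : F)⁻¹ * (12 * c))
      (C (3 : F)⁻¹ * (4 * a * c - b ^ 2)) ?_
    simp only [map_mul, map_sub, map_pow, map_ofNat]
    linear_combination algebraMap F[X] (RatFunc F) (C (3 : F)⁻¹) * hx4 - x ^ 4 * h31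
  obtain ⟨r, rfl⟩ := IsIntegrallyClosed.algebraMap_eq_of_integral hint
  have hinj := IsFractionRing.injective F[X] (RatFunc F)
  have hr : 3 * r ^ 4 + 4 * a * r ^ 3 + 6 * b * r ^ 2 + 12 * c * r + (4 * a * c - b ^ 2) = 0 := by
    apply hinj
    simp only [map_add, map_mul, map_sub, map_pow, map_ofNat, map_zero]
    exact hx4
  have hrd := deg_bound h3 n a b c r hda hdb hdc hr
  have k : ∀ m : ℕ, ((m : F[X])).natDegree = 0 := fun m => natDegree_natCast m
  obtain ⟨u, hud, rfl⟩ := sqrt_poly (N := n) (a + 3 * r) (by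
    have h1 := natDegree_add_le a (3 * r)
    have h2 := natDegree_mul_le (p := (3 : F[X])) (q := r)
    have h4 : (3 : F[X]).natDegree = 0 := k 3
    have h5 : max a.natDegree (3 * r).natDegree ≤ 2 * n := max_le (by omega) (by omega)
    omega) l (by
    simp only [map_add, map_mul, map_ofNat]
    linear_combination -ha)
  obtain ⟨s, hsd, rfl⟩ := sqrt_poly (N := 3 * n) (r ^ 3 + a * r ^ 2 + b * r + c) (by
    have h1 := natDegree_pow r 3
    have h2 : (a * r ^ 2).natDegree ≤ 2 * n + 2 * r.natDegree :=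
      (natDegree_mul_le).trans (by rw [natDegree_pow]; omega)
    have h3 : (b * r).natDegree ≤ 4 * n + r.natDegree := (natDegree_mul_le).trans (by omega)
    refine (natDegree_add_le _ _).trans (max_le ?_ (by omega))
    refine (natDegree_add_le _ _).trans (max_le ?_ (by omega))
    exact (natDegree_add_le _ _).trans (max_le (by omega) (by omega))) y (by
    simp only [map_add, map_mul, map_pow]
    rw [ha, hb, hc]
    ring)
  refine ⟨r, s, u, hrd, hsd, hud, ?_⟩
  have e1 : a = u ^ 2 - 3 * r := by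
    apply hinj
    simp only [map_sub, map_mul, map_pow, map_ofNat]
    exact ha
  have e2 : b = 3 * r ^ 2 + 2 * u * (s - u * r) := by
    apply hinj
    simp only [map_add, map_sub, map_mul, map_pow, map_ofNat]
    exact hb
  have e3 : c = (s - u * r) ^ 2 - r ^ 3 := by
    apply hinj
    simp only [map_sub, map_mul, map_pow]
    exact hc
  rw [← e1, ← e2, ← e3]

theorem DEN_thm : Pool.AV3.DENStmt := by
  classical
  intro F _ _ h2 n hn
  have h2' : (2 : RatFunc F) ≠ 0 := by
    intro h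
    have h3 : algebraMap F (RatFunc F) 2 = 0 := by
      rw [map_ofNat]
      exact h
    exact h2 ((map_eq_zero _).mp h3)
  have hq : 1 ≤ Nat.card F := Nat.card_pos
  have hex : ∀ f : F[X] × F[X] × F[X], f ∈ Ell F n → f ∉ Gd (F := F) n →
      (∃ x y l : RatFunc F, algebraMap F[X] (RatFunc F) f.1 = l ^ 2 - 3 * x ∧
        algebraMap F[X] (RatFunc F) f.2.1 = 3 * x ^ 2 + 2 * l * (y - l * x) ∧
        algebraMap F[X] (RatFunc F) f.2.2 = (y - l * x) ^ 2 - x ^ 3) ∨
      ((3 : F) = 0 ∧ f.1 = 0) := by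
    intro f hf hg
    by_cases h3 : (3 : F) = 0 ∧ f.1 = 0
    · exact Or.inr h3
    · left
      by_contra hcon
      apply hg
      refine ⟨hf, ?_, ?_⟩
      · intro T hT
        by_contra hT0
        obtain ⟨x, y, l, -, ha, hb, hc⟩ := torsion3 h2' _ _ _ T hT0 hT
        exact hcon ⟨x, y, l, ha, hb, hc⟩
      · by_contra h5
        push Not at h5
        exact h3 h5
  by_cases h3 : (3 : F) = 0
  · set φ : F[X] × F[X] × F[X] → F[X] × F[X] × F[X] := fun p => (p.1 ^ 2, p.2.1, p.2.2) with hφ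
    set T : Set (F[X] × F[X] × F[X]) := H95D F n ×ˢ (H95D F (4 * n) ×ˢ H95D F (6 * n)) with hT
    have hTf : T.Finite := (h95D_finite F _).prod ((h95D_finite F _).prod (h95D_finite F _))
    have hsub : {f | f ∈ Ell F n ∧ f ∉ Gd (F := F) n} ⊆ φ '' T := by
      rintro f ⟨hf, hg⟩
      have hr : ∃ r : F[X], r.natDegree ≤ n ∧ f.1 = r ^ 2 := by
        rcases hex f hf hg with ⟨x, y, l, ha, -, -⟩ | ⟨-, h0⟩
        · exact case3 h3 n f hf.1 x l ha
        · exact ⟨0, by simp, by rw [h0]; ring⟩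
      obtain ⟨r, hr1, hr2⟩ := hr
      refine ⟨(r, f.2.1, f.2.2), ⟨hr1, hf.1.2.1, hf.1.2.2⟩, ?_⟩
      simp only [hφ]
      rw [← hr2]
    calc {f | f ∈ Ell F n ∧ f ∉ Gd (F := F) n}.ncard ≤ (φ '' T).ncard :=
          Set.ncard_le_ncard hsub (hTf.image _)
      _ ≤ T.ncard := Set.ncard_image_le hTf
      _ = Nat.card F ^ (11 * n + 3) := by
          rw [hT, Set.ncard_prod, Set.ncard_prod, h95D_ncard, h95D_ncard, h95D_ncard, ← pow_add,
            ← pow_add]
          congr 1
          omega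
  · set φ : F[X] × F[X] × F[X] → F[X] × F[X] × F[X] := fun p =>
      (p.2.2 ^ 2 - 3 * p.1, 3 * p.1 ^ 2 + 2 * p.2.2 * (p.2.1 - p.2.2 * p.1),
        (p.2.1 - p.2.2 * p.1) ^ 2 - p.1 ^ 3) with hφ
    set T : Set (F[X] × F[X] × F[X]) := H95D F (2 * n) ×ˢ (H95D F (3 * n) ×ˢ H95D F n) with hT
    have hTf : T.Finite := (h95D_finite F _).prod ((h95D_finite F _).prod (h95D_finite F _))
    have hsub : {f | f ∈ Ell F n ∧ f ∉ Gd (F := F) n} ⊆ φ '' T := by
      rintro f ⟨hf, hg⟩
      rcases hex f hf hg with ⟨x, y, l, ha, hb, hc⟩ | ⟨h0, -⟩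
      · obtain ⟨r, s, u, hr, hs, hu, he⟩ := case1 h3 n f hf.1 x y l ha hb hc
        exact ⟨(r, s, u), ⟨hr, hs, hu⟩, he.symm⟩
      · exact absurd h0 h3
    calc {f | f ∈ Ell F n ∧ f ∉ Gd (F := F) n}.ncard ≤ (φ '' T).ncard :=
          Set.ncard_le_ncard hsub (hTf.image _)
      _ ≤ T.ncard := Set.ncard_image_le hTf
      _ = Nat.card F ^ (6 * n + 3) := by
          rw [hT, Set.ncard_prod, Set.ncard_prod, h95D_ncard, h95D_ncard, h95D_ncard, ← pow_add,
            ← pow_add]
          congr 1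
          omega
      _ ≤ Nat.card F ^ (11 * n + 3) := Nat.pow_le_pow_right hq (by omega)

end Pool.Agent.H74.AV3
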